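import Pool.Agent.L0h78.MengerGen

/-!
# Strongly proper forcing and winning strategies in the Menger game: a negative answer

No forcing without atoms that is strongly proper for stationarily many models preserves the
existence of a winning strategy of II in the Menger game: on the (compact) Cantor space II has a
winning strategy in the ground model, but not in the extension.

The proof: let `S` name a winning strategy of II in the extension. For a finite sequence `l` of
named moves and a condition `q` let `K l q` be the set of the ground model points which `q` forces
to be covered by the answer to `U` after `l`, for all named open covers `U`. If `K l q` were
uncountable, its closure would contain a homeomorphic copy of the Cantor space, so it would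
contain, in the extension, a new point `y`; but the answer to the cover of the ground model points
by the clopen sets that miss `y` does not cover the closure of `K l q`. So the sets `K l q` are
countable. Take a countable set `M` of conditions which is closed under the relevant functions,
and a condition which is strongly generic for `M`. Some ground model point `x` is in no `K l q` for
`q ∈ M` and `l` coming from `M`, and by strong genericity I has a play in which `x` is never
covered. That a new real is added is also proved from strong genericity.

The definitions are in `Pool.Agent.Helper669.Forcing` (forcing relation) and
`Pool.Agent.V11244.CohGame` (strongly proper forcing and the games); `Atomless` and `Can` are in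
`Pool.Agent.L0h78.MengerGen`.
-/

namespace Pool.Agent.Results.MP_18f314_lc.EveryAtomless

open Pool.Agent.Helper669.Forcing
open Pool.Agent.V11244.CohGame
open Pool.Agent.L0h78.MengerGen

universe u

/-- Finite sequences of bits; longer sequences are stronger conditions. -/
def Cohen : Type := List Bool

instance : Preorder Cohen where
  le s t := List.IsPrefix (α := Bool) t s
  le_refl s := List.prefix_refl (α := Bool) s
  le_trans _ _ _ h h' := List.IsPrefix.trans (α := Bool) h' h

instance : Countable Cohen := inferInstanceAs (Countable (List Bool))

theorem list_incompatible (p s : List Bool) (h1 : p ++ [true] <+: s) (h2 : p ++ [false] <+: s) :
    False := by
  have h3 := (List.prefix_of_prefix_length_le h1 h2 (by simp)).eq_of_length (by simp)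
  have h4 := List.append_cancel_left h3
  simp at h4

theorem atomless_cohen : Atomless Cohen := fun p =>
  ⟨List.append (α := Bool) p [true], List.prefix_append (α := Bool) _ _,
    List.append (α := Bool) p [false], List.prefix_append (α := Bool) _ _,
    fun s h1 h2 => list_incompatible p s h1 h2⟩

/-- (1) II has a winning strategy in the Menger game on the Cantor space. (2) Let `P` be a forcing
without atoms (every condition has two incompatible extensions) that is strongly proper for
stationarily many models. Then every condition of `P` forces that II has no winning strategy in
the Menger game on the ground model Cantor space with the topology that has the ground model
topology as a base. (3) There is such a `P`. -/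
theorem result :
    IIWinsFin (OpenCovers Can) (OpenCovers Can) ∧
    (∀ (P : Type u) [Preorder P], StronglyProper P → Atomless P →
      ∀ p : P, p ∈ fnot (fIIWinsFin (P := P) (X := Can) fOpenCover fOpenCover)) ∧
    ∃ (P : Type) (_ : Preorder P), Nonempty P ∧ StronglyProper P ∧ Atomless P :=
  ⟨wins_of_compact, fun _ _ hP hat p => no_menger hP hat p,
    Cohen, inferInstance, ⟨([] : List Bool)⟩, stronglyProper_of_countable, atomless_cohen⟩

end Pool.Agent.Results.MP_18f314_lc.EveryAtomless
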